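import Mathlib
import Pool.Agent.Lib.MP_b197b4_ntK.G56
import Pool.Agent.Lib.MP_b197b4_ntK.PtsN
import Pool.Agent.Lib.MP_b197b4_ntK.Dual
import Pool.Agent.Lib.MP_b197b4_ntG.GenN
import Pool.Agent.Lib.MP_b197b4_ntA.Defs
import Pool.Agent.Lib.MP_b197b4_ntA.Cur1

/-!
# MP_b197b4_nt, project BV (Bloch's group `V(X)` over function fields): definitions

`F` is the function field of the surface with coordinates `x`, `K₀` is the function field of the
curve `C`, the closed points of the generic fibre `X` of the surface over `C` are the discrete
valuation rings of `F` which contain `K₀`.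
-/

set_option autoImplicit false

namespace Pool.Agent.Lib.MP_b197b4_ntBV

open IsLocalRing Pool.Agent.Lib.MP_b197b4_ntK Pool.Agent.Lib.MP_b197b4_ntA

section

variable {k : Type} {F : Type} [Field k] [Field F] [Algebra k F] {n : ℕ}

/-- The residue field of `V` as an algebra over the constants. -/
@[reducible] noncomputable def rAlg {V : ValuationSubring F} (h : Over k V) :
    Algebra k (ResidueField V) :=
  ((residue V).comp ((algebraMap k F).codRestrict V h)).toAlgebra

/-- The closed points of the generic fibre: the discrete valuation rings of `F` containing `K₀`. -/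
def Hor (K₀ : IntermediateField k F) : Set (ValuationSubring F) :=
  {V | IsDiscreteValuationRing V ∧ ∀ t ∈ K₀, t ∈ V}

/-- The inclusion of `K₀` in the residue field of the closed point `V`. -/
noncomputable def toRes (K₀ : IntermediateField k F) (V : ValuationSubring F)
    (h : ∀ t ∈ K₀, t ∈ V) : K₀ →+* ResidueField V :=
  (residue V).comp ((algebraMap K₀ F).codRestrict V fun t => h t t.2)

open Classical in
/-- The norm from the residue field of the closed point `V` to `K₀`. -/
noncomputable def nrmV (K₀ : IntermediateField k F) (V : ValuationSubring F)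
    (u : ResidueField V) : K₀ :=
  if h : ∀ t ∈ K₀, t ∈ V then @Algebra.norm K₀ (ResidueField V) _ _ (toRes K₀ V h).toAlgebra u
  else 1

/-- The subring `O` of `F` lies over the place `v` of `K₀`. -/
def OverPl (K₀ : IntermediateField k F) (v : ValuationSubring K₀) (O : Subring F) : Prop :=
  ∀ t : K₀, t ∈ v ↔ (t : F) ∈ O

/-- The subring `O` of `F` contains the place `v` of `K₀`. -/
def Near (K₀ : IntermediateField k F) (v : ValuationSubring K₀) (O : Subring F) : Prop :=
  ∀ t : K₀, t ∈ v → (t : F) ∈ O

end

/-- The normal projective surface with homogeneous coordinates `x` is fibred over the regular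
projective curve with function field `K₀`: the local ring of every closed point lies over a place of
`K₀`; the generic fibre is geometrically irreducible up to inseparable extensions (`K₀` is
algebraically closed in `F`). -/
structure Fibr (k : Type) {F : Type} [Field k] [Field F] [Algebra k F] {n : ℕ}
    (x : Fin (n + 1) → F) (K₀ : IntermediateField k F) : Prop where
  surf : SurfN k x
  base : FunF k K₀ 1
  closed : ∀ u : F, IsAlgebraic K₀ u → u ∈ K₀
  mor : ∀ O ∈ Points (charts k x), ∀ t ∈ K₀, t ∈ O ∨ t⁻¹ ∈ O

/-- `W` is a place over the point `O` of the curve `V`. -/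
def AtPt {F : Type} [Field F] (O : Subring F) (V : ValuationSubring F)
    (W : ValuationSubring (ResidueField V)) : Prop :=
  ∀ b ∈ curveLoc O V, b ∈ W

/-- The functions which are regular at all curves over `v` and all horizontal curves on which the
linear form `w` does not vanish. -/
def BR {k : Type} {F : Type} [Field k] [Field F] [Algebra k F] {n : ℕ} (x : Fin (n + 1) → F)
    (K₀ : IntermediateField k F) (v : ValuationSubring K₀) (w : F) : Set F :=
  {f | ∀ V ∈ Curves (charts k x), Near K₀ v V.toSubring → Gen k x V.toSubring w → f ∈ V}

/-- The functions which are regular at all curves over `v` and all horizontal curves on which the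
linear forms `w` and `w'` do not vanish. -/
def BR2 {k : Type} {F : Type} [Field k] [Field F] [Algebra k F] {n : ℕ} (x : Fin (n + 1) → F)
    (K₀ : IntermediateField k F) (v : ValuationSubring K₀) (w w' : F) : Set F :=
  {f | ∀ V ∈ Curves (charts k x), Near K₀ v V.toSubring → Gen k x V.toSubring w →
    Gen k x V.toSubring w' → f ∈ V}

/-- The linear forms `s` and `s'` have no common zero over `v`. -/
structure Pair {k : Type} {F : Type} [Field k] [Field F] [Algebra k F] {n : ℕ} (x : Fin (n + 1) → F)
    (K₀ : IntermediateField k F) (v : ValuationSubring K₀) (s s' : F) : Prop where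
  mem : s ∈ Submodule.span k (Set.range x)
  mem' : s' ∈ Submodule.span k (Set.range x)
  ne : s ≠ 0
  ne' : s' ≠ 0
  noz : ∀ O ∈ Points (charts k x), OverPl K₀ v O → Gen k x O s ∨ Gen k x O s'

end Pool.Agent.Lib.MP_b197b4_ntBV
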