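import Mathlib
import Pool.Agent.Lib.MP_b197b4_ntBV.Defs
import Pool.Agent.Lib.MP_b197b4_ntA.Cur2

/-!
# MP_b197b4_nt, project BV: points, curves and places of `K₀`
-/

set_option autoImplicit false
set_option linter.style.haveILetI false

namespace Pool.Agent.Lib.MP_b197b4_ntBV

open IsLocalRing Pool.Agent.Lib.MP_b197b4_ntK Pool.Agent.Lib.MP_b197b4_ntA

variable {k F : Type} [Field k] [Field F] [Algebra k F] {n : ℕ} {x : Fin (n + 1) → F}
  {K₀ : IntermediateField k F} {v : ValuationSubring K₀} {O : Subring F} {V : ValuationSubring F}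

/-- The valuation ring `R ∩ K₀`. -/
theorem V0_inter {R : Subring F} (h : ∀ t ∈ K₀, t ∈ R ∨ t⁻¹ ∈ R) (hk : ∀ c : k, algebraMap k F c ∈ R) :
    ∃ v : ValuationSubring K₀, Over k v ∧ OverPl K₀ v R := by
  have h1 : ∀ t : K₀, t ∈ R.comap (algebraMap K₀ F) ∨ t⁻¹ ∈ R.comap (algebraMap K₀ F) := by
    intro t
    rcases h t t.2 with h2 | h2
    · exact Or.inl h2
    · right
      change ((t⁻¹ : K₀) : F) ∈ R
      exact h2
  refine ⟨ValuationSubring.ofSubring _ h1, ?_, ?_⟩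
  · intro c
    rw [ValuationSubring.mem_ofSubring]
    exact hk c
  · intro t
    rw [ValuationSubring.mem_ofSubring]
    rfl

/-- Every closed point lies over a place of `K₀`. -/
theorem point_place [IsAlgClosed k] (hF : Fibr k x K₀) (hO : O ∈ Points (charts k x)) :
    ∃ v : ValuationSubring K₀, Place k v ∧ OverPl K₀ v O := by
  obtain ⟨v, hvk, hvO⟩ := V0_inter (hF.mor O hO) (fun c => points_const_mem hO c)
  refine ⟨v, ⟨C1_dvr hF.base v hvk ?_, hvk⟩, hvO⟩
  rintro rfl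
  obtain ⟨t, ht, -, -⟩ := C1_sep hF.base
  have htO : (t : F) ∈ O := (hvO t).1 trivial
  haveI := hF.surf.local hO
  obtain ⟨c, hc⟩ := hF.surf.residue hO ⟨(t : F), htO⟩
  have hne : t - algebraMap k K₀ c ≠ 0 := by
    intro h0
    apply ht
    rw [sub_eq_zero] at h0
    rw [h0]
    exact isAlgebraic_algebraMap c
  have h1 : (((t - algebraMap k K₀ c)⁻¹ : K₀) : F) ∈ O := (hvO _).1 trivial
  rw [mem_maximalIdeal, mem_nonunits_iff] at hc
  apply hc
  refine IsUnit.of_mul_eq_one ⟨_, h1⟩ (Subtype.ext ?_)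
  change ((t - algebraMap k K₀ c : K₀) : F) * (((t - algebraMap k K₀ c)⁻¹ : K₀) : F) = 1
  rw [← MulMemClass.coe_mul, mul_inv_cancel₀ hne]
  rfl

/-- Every vertical curve lies over a place of `K₀`. -/
theorem curve_place [IsAlgClosed k] (hF : Fibr k x K₀) (hV : V ∈ Curves (charts k x))
    (hn : V ∉ Hor K₀) : ∃ v : ValuationSubring K₀, Place k v ∧ OverPl K₀ v V.toSubring := by
  have hd : IsDiscreteValuationRing V := Curves.dvr hV
  have hk : Over k V := Curves.over hV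
  obtain ⟨v, hvk, hvV⟩ := V0_inter (K₀ := K₀) (R := V.toSubring) (fun t _ => V.mem_or_inv_mem t) hk
  refine ⟨v, ⟨C1_dvr hF.base v hvk ?_, hvk⟩, hvV⟩
  rintro rfl
  exact hn ⟨hd, fun t ht => (hvV ⟨t, ht⟩).1 trivial⟩

theorem V0_eq {R : Subring F} {w : ValuationSubring K₀} (hv : Place k v) (hw : Place k w)
    (h : OverPl K₀ w R) (hn : Near K₀ v R) : OverPl K₀ v R := by
  have h1 : v = w := Cur2_eq_of_le hv.1 hw.1 fun t ht => (h t).2 (hn t ht)
  rw [h1]
  exact h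

theorem near_point [IsAlgClosed k] (hF : Fibr k x K₀) (hv : Place k v)
    (hO : O ∈ Points (charts k x)) (h : Near K₀ v O) : OverPl K₀ v O := by
  obtain ⟨w, hw, hwO⟩ := point_place hF hO
  exact V0_eq hv hw hwO h

theorem near_curve [IsAlgClosed k] (hF : Fibr k x K₀) (hv : Place k v)
    (hV : V ∈ Curves (charts k x)) (hn : V ∉ Hor K₀) (h : Near K₀ v V.toSubring) :
    OverPl K₀ v V.toSubring := by
  obtain ⟨w, hw, hwV⟩ := curve_place hF hV hn
  exact V0_eq hv hw hwV h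

/-- A uniformizer of the place. -/
theorem V0_unif (hv : Place k v) : ∃ t : K₀, t ≠ 0 ∧ t ∈ v ∧ t⁻¹ ∉ v ∧ ord v t = 1 := by
  obtain ⟨t, ht0, ht⟩ := Cur2_unif hv.1
  refine ⟨t, ht0, ?_, ?_, ht⟩
  · rw [← ord_nonneg_iff hv.1 ht0, ht]
    norm_num
  · rw [← ord_nonneg_iff hv.1 (inv_ne_zero ht0), ord_inv hv.1 ht0, ht]
    norm_num

theorem over_not_hor (hv : Place k v) (h : OverPl K₀ v V.toSubring) : V ∉ Hor K₀ := by
  intro hV
  obtain ⟨t, -, -, ht, -⟩ := V0_unif hv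
  exact ht ((h _).2 (hV.2 _ (t⁻¹).2))

theorem over_through [IsAlgClosed k] (hF : Fibr k x K₀) (hv : Place k v)
    (hO : O ∈ Points (charts k x)) (h : OverPl K₀ v O) :
    ∃ V ∈ Curves (charts k x), (O : Set F) ⊆ V ∧ OverPl K₀ v V.toSubring := by
  obtain ⟨t, ht0, htv, hti, -⟩ := V0_unif hv
  have ht0' : (t : F) ≠ 0 := fun h0 => ht0 (Subtype.ext h0)
  obtain ⟨V, hV, hOV, hlt⟩ := hF.surf.exists_through hO ((h t).1 htv) ht0' (fun h1 => by
    apply hti
    rw [h]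
    exact h1)
  refine ⟨V, hV, hOV, ?_⟩
  have hn : V ∉ Hor K₀ := by
    intro hh
    have h1 : ((t : F))⁻¹ ∈ V := hh.2 _ (K₀.inv_mem t.2)
    rw [← ValuationSubring.valuation_le_one_iff, map_inv₀] at h1
    have h3 : 0 < V.valuation (t : F) := by rw [Valuation.pos_iff]; exact ht0'
    exact absurd hlt (not_lt.2 ((inv_le_one₀ h3).1 h1))
  exact near_curve hF hv hV hn fun y hy => hOV ((h y).1 hy)

theorem finite_over (hF : Fibr k x K₀) (hv : Place k v) :
    {V | V ∈ Curves (charts k x) ∧ OverPl K₀ v V.toSubring}.Finite := by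
  obtain ⟨t, ht0, htv, hti, -⟩ := V0_unif hv
  have ht0' : (t : F) ≠ 0 := fun h0 => ht0 (Subtype.ext h0)
  refine (hF.surf.curves_finite (t : F) ht0').subset ?_
  rintro V ⟨hV, h⟩
  refine ⟨hV, ?_⟩
  have hd : IsDiscreteValuationRing V := Curves.dvr hV
  intro h0
  have h1 : ((t : F))⁻¹ ∈ V := by
    rw [← ord_nonneg_iff hd (inv_ne_zero ht0'), ord_inv hd ht0', h0, neg_zero]
  exact hti ((h _).2 h1)

end Pool.Agent.Lib.MP_b197b4_ntBV
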