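import Mathlib
import Pool.Agent.Lib.MP_b197b4_ntA.LenOrd

/-!
# MP_b197b4_nt, project BV: orders of norms
-/

set_option autoImplicit false

namespace Pool.Agent.Lib.MP_b197b4_ntBV

open IsLocalRing Pool.Agent.Lib.MP_b197b4_ntK Pool.Agent.Lib.MP_b197b4_ntA

/-- The length of `D / (y)` over a principal ideal domain. -/
theorem VD_len_norm {R D : Type} [CommRing R] [IsDomain R] [IsPrincipalIdealRing R] [CommRing D]
    [IsDomain D] [Algebra R D] [Module.Free R D] [Module.Finite R D] {y : D} (hy : y ≠ 0) :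
    Module.length R (D ⧸ Ideal.span {y}) = Ring.ord R (Algebra.norm R y) := by
  classical
  have hI : Ideal.span {y} ≠ ⊥ := by rwa [Ne, Ideal.span_singleton_eq_bot]
  let b := Module.Free.chooseBasis R D
  have key : ∀ (s : Finset (Module.Free.ChooseBasisIndex R D)),
      Ring.ord R (∏ i ∈ s, Ideal.smithCoeffs b (Ideal.span {y}) hI i) =
        ∑ i ∈ s, Ring.ord R (Ideal.smithCoeffs b (Ideal.span {y}) hI i) := by
    intro s
    induction s using Finset.induction_on with
    | empty => rw [Finset.prod_empty, Finset.sum_empty, Ring.ord_one]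
    | insert i s hi ih =>
      rw [Finset.prod_insert hi, Finset.sum_insert hi, Ring.ord_mul', ih]
      exact mem_nonZeroDivisors_of_ne_zero (Ideal.smithCoeffs_ne_zero b _ hI i)
  rw [(Ideal.quotientEquivPiSpan (Ideal.span {y}) b hI).length_eq, Module.length_pi_of_fintype,
    Ring.ord_eq_of_associated (associated_norm_prod_smith b hy)]
  exact (key Finset.univ).symm

/-- The order of vanishing for a discrete valuation ring. -/
theorem VD_ord_val {K : Type} [Field K] (v : ValuationSubring K) (hv : IsDiscreteValuationRing v)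
    {a : v} (ha : a ≠ 0) : Ring.ord v a = ((ord v (a : K)).toNat : ℕ∞) := by
  have ha' : (a : K) ≠ 0 := fun h => ha (Subtype.ext h)
  obtain ⟨p, u, hp, hpu⟩ := hasOrd_ord hv ha'
  have hn : 0 ≤ ord v (a : K) := (ord_nonneg_iff hv ha').2 a.2
  obtain ⟨n, hn'⟩ := Int.eq_ofNat_of_zero_le hn
  rw [hn'] at hpu ⊢
  have e : a = p ^ n * (u : v) := by
    apply Subtype.ext
    rw [hpu]
    push_cast
    simp
  rw [Int.toNat_natCast, e, Ring.ord_mul_of_isUnit_right u.isUnit, Ring.ord_pow,
    Ring.ord_of_irreducible hp]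
  · simp
  · exact mem_nonZeroDivisors_of_ne_zero hp.ne_zero

/-- The extension is finite. -/
theorem VD_finite {k K L : Type} [Field k] [Field K] [Field L] [Algebra k K]
    [Algebra k L] [Algebra K L] [IsScalarTower k K L] (hK : FunF k K 1) (hL : FunF k L 1) :
    Module.Finite K L := by
  have h1 : Algebra.trdeg k K + Algebra.trdeg K L = Algebra.trdeg k L := trdeg_add_eq k K (A := L)
  rw [hK.2, hL.2] at h1
  have h2 : Algebra.trdeg K L = 0 := by
    have h3 : (1 : Cardinal) + Algebra.trdeg K L = 1 + 0 := by rw [add_zero]; exact_mod_cast h1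
    exact Cardinal.eq_of_add_eq_add_left h3 Cardinal.one_lt_aleph0
  have h3 : Algebra.IsAlgebraic K L := trdeg_eq_zero_iff.1 h2
  have h0 : Algebra.EssFiniteType k L := IntermediateField.fg_top_iff.1 hL.1
  have h4 : Algebra.EssFiniteType K L := Algebra.EssFiniteType.of_comp k K L
  obtain ⟨S, hS⟩ := IntermediateField.fg_top_iff.2 h4
  have h5 : FiniteDimensional K (IntermediateField.adjoin K (S : Set L)) :=
    IntermediateField.finiteDimensional_adjoin fun x _ => Algebra.IsIntegral.isIntegral x
  rw [hS] at h5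
  exact Module.Finite.equiv IntermediateField.topEquiv.toLinearEquiv

section VD_places

variable {k K L : Type} [Field k] [Field K] [Field L] [Algebra k K] [Algebra k L] [Algebra K L]
  [IsScalarTower k K L]

omit [Algebra K L] in
/-- A power of an element of negative order absorbs every element. -/
theorem VD_absorb {v : ValuationSubring K} (hv : IsDiscreteValuationRing v) {x : K} (hx0 : x ≠ 0)
    (hx : ord v x < 0) {z : K} (hz : z ≠ 0) : ∃ n : ℕ, z * (x ^ n)⁻¹ ∈ v := by
  refine ⟨(ord v z).natAbs, ?_⟩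
  have hxn : x ^ (ord v z).natAbs ≠ 0 := pow_ne_zero _ hx0
  rw [← ord_nonneg_iff hv (mul_ne_zero hz (inv_ne_zero hxn)), ord_mul hv hz (inv_ne_zero hxn),
    ord_inv hv hxn, ord_pow hv hx0]
  have h1 : (0 : ℤ) ≤ ((ord v z).natAbs : ℤ) := Int.natCast_nonneg _
  have h2 : -(ord v z) ≤ ((ord v z).natAbs : ℤ) := by omega
  have h3 : ((ord v z).natAbs : ℤ) * ord v x ≤ ((ord v z).natAbs : ℤ) * (-1) :=
    mul_le_mul_of_nonneg_left (by omega) h1
  omega

/-- A valuation ring over `v` induces `v`. -/
theorem VD_comap [Algebra.IsAlgebraic K L] {v : ValuationSubring K}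
    (hv : IsDiscreteValuationRing v) {V : ValuationSubring L}
    (h : ∀ a ∈ v, algebraMap K L a ∈ V) (hV : V ≠ ⊤) : V.comap (algebraMap K L) = v := by
  have h1 : ∀ x, algebraMap K L x ∈ V → x ∈ v := by
    intro x hx
    by_contra hxv
    have hx0 : x ≠ 0 := by
      rintro rfl
      exact hxv (zero_mem v)
    have hlt : ord v x < 0 := by
      by_contra hc
      exact hxv ((ord_nonneg_iff hv hx0).1 (not_lt.1 hc))
    have hall : ∀ z : K, algebraMap K L z ∈ V := by
      intro z
      by_cases hz : z = 0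
      · rw [hz, map_zero]
        exact zero_mem V
      obtain ⟨n, hn⟩ := VD_absorb hv hx0 hlt hz
      have h2 := V.mul_mem _ _ (h _ hn) (pow_mem hx n)
      rwa [← map_pow, ← map_mul, inv_mul_cancel_right₀ (pow_ne_zero n hx0)] at h2
    apply hV
    rw [eq_top_iff]
    intro y _
    exact cur3_integral (A := K) V hall (Algebra.IsIntegral.isIntegral y)
  ext x
  exact ⟨fun hx => h1 x hx, fun hx => h x hx⟩

omit [Algebra k K] [IsScalarTower k K L] in
/-- The places over `v` are finite in number. -/
theorem VD_fin [IsAlgClosed k] (hL : FunF k L 1) {v : ValuationSubring K}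
    (hv : IsDiscreteValuationRing v) :
    {W : ValuationSubring L | Place k W ∧ W.comap (algebraMap K L) = v}.Finite := by
  obtain ⟨p, hp0, hp⟩ := Cur2_unif hv
  have hp' : algebraMap K L p ≠ 0 := (map_ne_zero _).2 hp0
  refine (C1_fin hL _ hp').subset ?_
  rintro W ⟨hW, hWv⟩
  refine ⟨hW, fun h0 => ?_⟩
  have h1 : algebraMap K L p⁻¹ ∈ W := by
    rw [map_inv₀, ← ord_nonneg_iff hW.1 (inv_ne_zero hp'), ord_inv hW.1 hp', h0, neg_zero]
  have h2 : p⁻¹ ∈ v := by
    rw [← hWv]
    exact h1
  rw [← ord_nonneg_iff hv (inv_ne_zero hp0), ord_inv hv hp0, hp] at h2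
  omega

/-- The integral closure is the intersection of the places. -/
theorem VD_int [IsAlgClosed k] [Algebra.IsAlgebraic K L] (hL : FunF k L 1)
    {v : ValuationSubring K} (hv : Place k v) (y : L) :
    IsIntegral v y ↔ ∀ W : ValuationSubring L, Place k W → W.comap (algebraMap K L) = v →
      y ∈ W := by
  constructor
  · intro hy W _ hW
    refine cur3_integral (A := v) W (fun a => ?_) hy
    have h1 : (a : K) ∈ W.comap (algebraMap K L) := by
      rw [hW]
      exact a.2
    exact h1
  · intro h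
    have h1 : y ∈ (⨅ V : {V : ValuationSubring L //
        ((algebraMap K L) '' (v : Set K)) ⊆ V.toSubring}, V.1.toSubring) := by
      rw [Subring.mem_iInf]
      rintro ⟨U, hU⟩
      change y ∈ U
      have hU' : ∀ a ∈ v, algebraMap K L a ∈ U := fun a ha => hU ⟨a, ha, rfl⟩
      by_cases hT : U = ⊤
      · rw [hT]
        exact ValuationSubring.mem_top y
      have hUk : Over k U := fun c => by
        rw [IsScalarTower.algebraMap_apply k K L]
        exact hU' _ (hv.2 c)
      exact h U ⟨C1_dvr hL U hUk hT, hUk⟩ (VD_comap hv.1 hU' hT)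
    rw [iInf_valuationSubring_superset] at h1
    have h2 : IsIntegral (Subring.closure ((algebraMap K L) '' (v : Set K))) y := h1
    obtain ⟨q, hq, hq0⟩ := h2
    have h3 : Subring.closure ((algebraMap K L) '' (v : Set K)) ≤
        (⊥ : Subalgebra v L).toSubring := by
      rw [Subring.closure_le]
      rintro _ ⟨a, ha, rfl⟩
      exact (Algebra.mem_bot).2 ⟨⟨a, ha⟩, rfl⟩
    have h4 : IsIntegral (⊥ : Subalgebra v L) y := by
      refine ⟨q.map (Subring.inclusion h3), hq.map _, ?_⟩
      rw [Polynomial.eval₂_map]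
      exact hq0
    have h5 : Algebra.IsIntegral v (⊥ : Subalgebra v L) := by
      refine ⟨fun a => ?_⟩
      obtain ⟨r, hr⟩ := Algebra.mem_bot.1 a.2
      have e : a = algebraMap v (⊥ : Subalgebra v L) r := Subtype.ext hr.symm
      rw [e]
      exact isIntegral_algebraMap
    exact isIntegral_trans y h4

end VD_places

section VD_fin

variable {k K L : Type} [Field k] [Field K] [Field L] [Algebra k K] [Algebra k L] [Algebra K L]
  [IsScalarTower k K L]

omit [Algebra k L] [Algebra k K] [IsScalarTower k K L] [Field k] in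
theorem VD_ne_top {W : ValuationSubring L} (hW : IsDiscreteValuationRing W) : W ≠ ⊤ := by
  obtain ⟨p, hp0, hp⟩ := Cur2_unif hW
  intro h
  have h1 : p⁻¹ ∈ W := by
    rw [h]
    exact ValuationSubring.mem_top _
  rw [← ord_nonneg_iff hW (inv_ne_zero hp0), ord_inv hW hp0, hp] at h1
  omega

/-- The integral closure is finite. -/
theorem VD_fg [IsAlgClosed k] [Module.Finite K L] (hL : FunF k L 1) {v : ValuationSubring K}
    (hv : Place k v) : Module.Finite v (integralClosure v L) := by
  classical
  have hdvr : IsDiscreteValuationRing v := hv.1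
  obtain ⟨s, b, hb⟩ := FiniteDimensional.exists_is_basis_integral v K L
  obtain ⟨T, hT⟩ : ∃ T : Finset L, T = Finset.univ.image b := ⟨_, rfl⟩
  obtain ⟨B, hB⟩ : ∃ B : Subalgebra v L, B = Algebra.adjoin v (T : Set L) := ⟨_, rfl⟩
  have hbB : ∀ i, b i ∈ B := fun i => by
    rw [hB]
    apply Algebra.subset_adjoin
    rw [hT]
    exact Finset.mem_coe.2 (Finset.mem_image_of_mem _ (Finset.mem_univ i))
  have hBfg : Module.Finite v B := by
    have h1 : (Subalgebra.toSubmodule B).FG := by
      rw [hB]
      refine fg_adjoin_of_finite T.finite_toSet fun x hx => ?_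
      rw [hT] at hx
      obtain ⟨i, -, rfl⟩ := Finset.mem_image.1 (Finset.mem_coe.1 hx)
      exact hb i
    exact Module.Finite.iff_fg.2 h1
  have hvB : ∀ a : v, algebraMap K L (a : K) ∈ B := fun a => B.algebraMap_mem a
  have hfr : ∀ u : L, ∃ x y : B.toSubring, (y : L) ≠ 0 ∧ u = x / y := by
    intro u
    obtain ⟨d, hd⟩ := IsLocalization.exist_integer_multiples_of_finset (nonZeroDivisors v)
      (Finset.univ.image fun i => b.repr u i)
    have hd0 : algebraMap v L (d : v) ≠ 0 := by
      rw [Ne, FaithfulSMul.algebraMap_eq_zero_iff]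
      exact nonZeroDivisors.ne_zero d.2
    have h1 : algebraMap v L (d : v) * u ∈ B := by
      have e : algebraMap v L (d : v) * u = ∑ i, ((d : v) • b.repr u i) • b i := by
        conv_lhs => rw [← b.sum_repr u, Finset.mul_sum]
        refine Finset.sum_congr rfl fun i _ => ?_
        rw [smul_assoc, Algebra.smul_def (d : v)]
      rw [e]
      refine sum_mem fun i _ => ?_
      obtain ⟨r, hr⟩ := hd _ (Finset.mem_image_of_mem _ (Finset.mem_univ i))
      have e2 : ((d : v) • b.repr u i) • b i = algebraMap v L r * b i := by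
        rw [Algebra.smul_def, ← hr]
        rfl
      rw [e2]
      exact mul_mem (B.algebraMap_mem r) (hbB i)
    exact ⟨⟨_, h1⟩, ⟨_, B.algebraMap_mem d⟩, hd0, by field_simp⟩
  have hk : ∀ c : k, algebraMap k L c ∈ B.toSubring := fun c => by
    rw [IsScalarTower.algebraMap_apply k K L]
    exact hvB ⟨_, hv.2 c⟩
  have hfin : {W : ValuationSubring L | Place k W ∧ ∀ x ∈ B.toSubring, x ∈ W}.Finite := by
    refine (VD_fin (K := K) hL hv.1).subset ?_
    rintro W ⟨hW, hWB⟩
    exact ⟨hW, VD_comap hv.1 (fun a ha => hWB _ (hvB ⟨a, ha⟩)) (VD_ne_top hW.1)⟩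
  obtain ⟨c, hc0, hc⟩ := LO_conductor hL B.toSubring hk hfr hfin
  have hcy : ∀ y : integralClosure v L, c * (y : L) ∈ B := by
    intro y
    refine hc y fun W hW hWB => ?_
    exact (VD_int hL hv (y : L)).1 y.2 W hW
      (VD_comap hv.1 (fun a ha => hWB _ (hvB ⟨a, ha⟩)) (VD_ne_top hW.1))
  let f : integralClosure v L →ₗ[v] B :=
    { toFun := fun y => ⟨c * (y : L), hcy y⟩
      map_add' := fun y z => Subtype.ext (mul_add c (y : L) (z : L))
      map_smul' := fun a y => Subtype.ext (mul_smul_comm a c (y : L)) }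
  have hf : Function.Injective f := by
    intro y z h
    have h1 : c * (y : L) = c * (z : L) := congrArg Subtype.val h
    exact Subtype.ext (mul_left_cancel₀ hc0 h1)
  exact Module.Finite.of_injective f hf

end VD_fin

section VD_main

variable {k K L : Type} [Field k] [Field K] [Field L] [Algebra k K] [Algebra k L] [Algebra K L]
  [IsScalarTower k K L]

/-- The length of the integral closure modulo `y`. -/
theorem VD_len [IsAlgClosed k] [Module.Finite K L] (hL : FunF k L 1) {v : ValuationSubring K}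
    (hv : Place k v) (y : integralClosure v L) (hy0 : (y : L) ≠ 0)
    (S : Finset (ValuationSubring L))
    (hS : ∀ W, W ∈ S ↔ Place k W ∧ W.comap (algebraMap K L) = v) :
    Module.length v (integralClosure v L ⧸ Ideal.span {y}) =
      ((∑ W ∈ S, ord W (y : L)).toNat : ℕ∞) := by
  classical
  have hSd : ∀ W ∈ S, IsDiscreteValuationRing W := fun W hW => ((hS W).1 hW).1.1
  have hB : ∀ W ∈ S, ∀ b ∈ (algebraMap v L).range, b ∈ W := by
    rintro W hW _ ⟨a, rfl⟩
    have h1 : (a : K) ∈ W.comap (algebraMap K L) := by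
      rw [((hS W).1 hW).2]
      exact a.2
    exact h1
  have hres : ∀ W ∈ S, ∀ z ∈ W, ∃ b ∈ (algebraMap v L).range, W.valuation (z - b) < 1 := by
    intro W hW z hz
    obtain ⟨a, ha⟩ := cur3_const hL ((hS W).1 hW).1 hz
    refine ⟨algebraMap k L a, ⟨⟨_, hv.2 a⟩, ?_⟩, ha⟩
    exact (IsScalarTower.algebraMap_apply k K L a).symm
  have hD : ∀ z : L, IsIntegral v z ↔ ∀ W ∈ S, z ∈ W := by
    intro z
    rw [VD_int hL hv z]
    exact ⟨fun h W hW => h W ((hS W).1 hW).1 ((hS W).1 hW).2,
      fun h W h1 h2 => h W ((hS W).2 ⟨h1, h2⟩)⟩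
  have hnn : ∀ W ∈ S, 0 ≤ ord W (y : L) := fun W hW =>
    (ord_nonneg_iff (hSd W hW) hy0).2 ((hD _).1 y.2 W hW)
  obtain ⟨N, hN⟩ := Int.eq_ofNat_of_zero_le (Finset.sum_nonneg hnn)
  have h1 := LO_lenD (hB := hB) hSd hres N (y : L) hy0 hnn hN
  rw [hN, Int.toNat_natCast, ← h1]
  unfold LO_L
  obtain ⟨Q, hQ⟩ : ∃ Q, Q = LO_D S hB := ⟨_, rfl⟩
  obtain ⟨P, hP⟩ : ∃ P, P = LO_sm (y : L) hy0 Q := ⟨_, rfl⟩
  rw [← hQ, ← hP]
  have hmQ : ∀ z : L, z ∈ Q ↔ IsIntegral v z := by
    intro z
    rw [hQ, hD]
    exact Iff.rfl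
  have hmP : ∀ z : L, z ∈ P ↔ IsIntegral v ((y : L)⁻¹ * z) := by
    intro z
    rw [hP, LO_mem_sm, hmQ]
  let _ : Algebra v (algebraMap v L).range := (algebraMap v L).rangeRestrict.toAlgebra
  let _ : Module v (Q ⧸ P.submoduleOf Q) :=
    Module.compHom _ (algebraMap v (algebraMap v L).range)
  have _ : IsScalarTower v (algebraMap v L).range (Q ⧸ P.submoduleOf Q) :=
    ⟨fun a b x => by
      rw [Algebra.smul_def, mul_smul]
      rfl⟩
  rw [← Module.length_eq_of_surjective (S := v) (R := (algebraMap v L).range)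
    (M := Q ⧸ P.submoduleOf Q) (algebraMap v L).rangeRestrict_surjective]
  let g : integralClosure v L →ₗ[v] (Q ⧸ P.submoduleOf Q) :=
    { toFun := fun z => Submodule.Quotient.mk ⟨(z : L), (hmQ _).2 z.2⟩
      map_add' := fun z w => rfl
      map_smul' := fun a z => by
        have e : (⟨((a • z : integralClosure v L) : L), (hmQ _).2 (a • z).2⟩ : Q) =
            ((algebraMap v L).rangeRestrict a) • (⟨(z : L), (hmQ _).2 z.2⟩ : Q) :=
          Subtype.ext (Algebra.smul_def a (z : L))
        exact congrArg (Submodule.Quotient.mk (p := P.submoduleOf Q)) e }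
  have hg : Function.Surjective g := by
    intro x
    obtain ⟨⟨z, hz⟩, rfl⟩ := Submodule.Quotient.mk_surjective _ x
    exact ⟨⟨z, (hmQ z).1 hz⟩, rfl⟩
  have hker : LinearMap.ker g = (Ideal.span {y}).restrictScalars v := by
    ext z
    rw [LinearMap.mem_ker, Submodule.restrictScalars_mem, Ideal.mem_span_singleton']
    change (Submodule.Quotient.mk _ : Q ⧸ P.submoduleOf Q) = 0 ↔ _
    rw [Submodule.Quotient.mk_eq_zero]
    change (z : L) ∈ P ↔ _
    rw [hmP]
    constructor
    · intro h
      refine ⟨⟨_, h⟩, Subtype.ext ?_⟩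
      change (y : L)⁻¹ * z * y = z
      field_simp
    · rintro ⟨a, rfl⟩
      change IsIntegral v ((y : L)⁻¹ * (a * y))
      have e : (y : L)⁻¹ * (a * y) = a := by field_simp
      rw [e]
      exact a.2
  rw [← (Submodule.Quotient.restrictScalarsEquiv v (Ideal.span {y})).length_eq,
    ← (Submodule.quotEquivOfEq _ _ hker).length_eq]
  exact (g.quotKerEquivOfSurjective hg).length_eq

/-- The formula for integral elements. -/
theorem VD_integral [IsAlgClosed k] [Module.Finite K L] (hL : FunF k L 1)
    {v : ValuationSubring K} (hv : Place k v) (y : integralClosure v L) (hy0 : (y : L) ≠ 0)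
    (S : Finset (ValuationSubring L))
    (hS : ∀ W, W ∈ S ↔ Place k W ∧ W.comap (algebraMap K L) = v) :
    ord v (Algebra.norm K (y : L)) = ∑ W ∈ S, ord W (y : L) := by
  classical
  have hdvr : IsDiscreteValuationRing v := hv.1
  have hfg : Module.Finite v (integralClosure v L) := VD_fg hL hv
  have hfree : Module.Free v (integralClosure v L) := Module.free_of_finite_type_torsion_free'
  have hloc : IsLocalization (Algebra.algebraMapSubmonoid (integralClosure v L)
      (nonZeroDivisors v)) L := IsIntegralClosure.isLocalization v K L (integralClosure v L)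
  have hy : y ≠ 0 := fun h => hy0 (by rw [h]; rfl)
  have h1 := VD_len_norm (R := v) hy
  rw [VD_len hL hv y hy0 S hS] at h1
  have h2 : Algebra.norm K (y : L) = ((Algebra.norm v y : v) : K) :=
    Algebra.norm_localization (Rₘ := K) (Sₘ := L) v (nonZeroDivisors v) y
  have hn : Algebra.norm v y ≠ 0 := by
    intro h
    rw [h] at h2
    exact hy0 (Algebra.norm_eq_zero_iff.1 h2)
  rw [VD_ord_val v hdvr hn, ← h2] at h1
  have h3 : (∑ W ∈ S, ord W (y : L)).toNat = (ord v (Algebra.norm K (y : L))).toNat := by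
    exact_mod_cast h1
  have h4 : 0 ≤ ord v (Algebra.norm K (y : L)) := by
    rw [h2, ord_nonneg_iff hdvr fun h => hn (Subtype.ext h)]
    exact (Algebra.norm v y).2
  have h5 : 0 ≤ ∑ W ∈ S, ord W (y : L) := Finset.sum_nonneg fun W hW =>
    (ord_nonneg_iff ((hS W).1 hW).1.1 hy0).2
      ((VD_int hL hv (y : L)).1 y.2 W ((hS W).1 hW).1 ((hS W).1 hW).2)
  omega

end VD_main

/-- VD. The order of the norm is the sum of the orders over all places over `v` (the residue
fields are `k`). PROOF: both sides are additive in `u`, so `u` may be taken integral over `v`; `D`,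
the integral closure of `v` in `L`, is the intersection of the `W` over `v`; `D` is free over the
principal ideal domain `v` (finite by `LO_conductor`); `length (D / u D) = ∑ ord W u` as a
`v`-module (`LO_lenD`), and `= ord v (norm u)` by `associated_norm_prod_smith` and
`Ideal.quotientEquivPiSpan`. -/
theorem ord_norm {k K L : Type} [Field k] [IsAlgClosed k] [Field K] [Field L] [Algebra k K]
    [Algebra k L] [Algebra K L] [IsScalarTower k K L] (hK : FunF k K 1) (hL : FunF k L 1)
    (v : ValuationSubring K) (hv : Place k v) {u : L} (hu : u ≠ 0) :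
    ord v (Algebra.norm K u) =
      ∑ᶠ (W : ValuationSubring L) (_ : Place k W ∧ W.comap (algebraMap K L) = v), ord W u := by
  classical
  have hfin : Module.Finite K L := VD_finite hK hL
  have hF := VD_fin (K := K) hL hv.1
  have hS : ∀ W, W ∈ hF.toFinset ↔ Place k W ∧ W.comap (algebraMap K L) = v := fun W => by
    rw [Set.Finite.mem_toFinset]
    rfl
  have hfr : IsFractionRing (integralClosure v L) L :=
    integralClosure.isFractionRing_of_finite_extension K L
  obtain ⟨a, b, hb, hab⟩ := IsFractionRing.div_surjective (A := integralClosure v L) u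
  have hb0 : (b : L) ≠ 0 := fun h => nonZeroDivisors.ne_zero hb (Subtype.ext h)
  have hab' : u = (a : L) / (b : L) := hab.symm
  have ha0 : (a : L) ≠ 0 := by
    intro h
    rw [h, zero_div] at hab'
    exact hu hab'
  have hna : Algebra.norm K (a : L) ≠ 0 := fun h => ha0 (Algebra.norm_eq_zero_iff.1 h)
  have hnb : Algebra.norm K (b : L) ≠ 0 := fun h => hb0 (Algebra.norm_eq_zero_iff.1 h)
  have e : ∑ᶠ (W : ValuationSubring L) (_ : Place k W ∧ W.comap (algebraMap K L) = v), ord W u =
      ∑ W ∈ hF.toFinset, ord W u :=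
    finsum_mem_eq_finite_toFinset_sum (fun W => ord W u) hF
  have e2 : Algebra.norm K ((a : L) / (b : L)) =
      Algebra.norm K (a : L) / Algebra.norm K (b : L) := by
    rw [eq_div_iff hnb, ← map_mul, div_mul_cancel₀ _ hb0]
  rw [e, hab', e2, ord_div hv.1 hna hnb, VD_integral hL hv a ha0 _ hS,
    VD_integral hL hv b hb0 _ hS, ← Finset.sum_sub_distrib]
  exact Finset.sum_congr rfl fun W hW => (ord_div ((hS W).1 hW).1.1 ha0 hb0).symm

end Pool.Agent.Lib.MP_b197b4_ntBV
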